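import Pool.Agent.Lib.MP_59c382_al.MkData
import Pool.Agent.Lib.MP_59c382_al.MainE
import Pool.Agent.Lib.MP_59c382_al.FinIndex

/-!
# Automatic groups with a metabelian subgroup of finite index are virtually abelian
-/

set_option autoImplicit false

namespace Pool.Agent.Results.MP_59c382_al.VirtuallyMetabelian

universe u

/-- `G` is metabelian: its commutator subgroup `[G, G]` is abelian -/
def IsMetabelian (G : Type u) [Group G] : Prop :=
  ∀ x ∈ commutator G, ∀ y ∈ commutator G, x * y = y * x

/-- `G` is virtually abelian: it has an abelian subgroup of finite index -/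
def IsVirtuallyAbelian (G : Type u) [Group G] : Prop :=
  ∃ H : Subgroup G, H.FiniteIndex ∧ ∀ x ∈ H, ∀ y ∈ H, x * y = y * x

section

variable {G : Type u} [Group G]

/-- the alphabet `A = X ∪ X⁻¹` -/
def Alphabet (X : Set G) : Set G := {a | a ∈ X ∨ a⁻¹ ∈ X}

/-- the element of `G` represented by the word `w` over `A`; the path of `w` is
`w(t) = val (w.take t)` -/
def val {A : Set G} (w : List A) : G := (w.map (fun a : A => (a : G))).prod

/-- the word metric `d_X(g, h)`: the length of a shortest word over `A = X ∪ X⁻¹` that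
represents `g⁻¹ h` (such words exist when `X` generates `G`) -/
noncomputable def wordDist (X : Set G) (g h : G) : ℕ :=
  sInf {m : ℕ | ∃ w : List (Alphabet X), val w = g⁻¹ * h ∧ w.length = m}

end

/-- `G` is automatic: for some finite generating set `X` there are a regular language `L` over
`A = X ∪ X⁻¹` and a constant `K` such that every element is represented by a word of `L`, and
words `u, v ∈ L` with `u = v x` in `G`, `x ∈ A ∪ {1}`, satisfy `d_X(u(t), v(t)) ≤ K` for all `t` -/
def IsAutomatic (G : Type u) [Group G] : Prop :=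
  ∃ X : Set G, X.Finite ∧ Subgroup.closure X = ⊤ ∧
    ∃ (L : Language (Alphabet X)) (K : ℕ), L.IsRegular ∧
      (∀ g : G, ∃ w ∈ L, val w = g) ∧
      ∀ u ∈ L, ∀ v ∈ L, ∀ x : G, (x ∈ Alphabet X ∨ x = 1) → val u = val v * x →
        ∀ t : ℕ, wordDist X (val (u.take t)) (val (v.take t)) ≤ K

open Pool.Agent.Lib.MP_59c382_al

/-- from the definition to the structure used in the proof -/
theorem exists_autG {G : Type u} [Group G] (h : IsAutomatic G) : Nonempty (AutG.{u, u, 0} G) := by
  obtain ⟨X, hX, hgen, L, K, ⟨σ, hσ, M, hM⟩, hsurj, hfellow⟩ := h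
  have hA : (Alphabet X).Finite := by
    have h1 : Alphabet X = X ∪ (fun a => a⁻¹) '' X := by
      ext a
      constructor
      · rintro (h | h)
        · exact Or.inl h
        · exact Or.inr ⟨a⁻¹, h, inv_inv a⟩
      · rintro (h | ⟨b, hb, rfl⟩)
        · exact Or.inl h
        · exact Or.inr (by simpa using hb)
    rw [h1]
    exact hX.union (hX.image _)
  have hr : Set.range (fun a : Alphabet X => (a : G)) = Alphabet X := Subtype.range_coe
  -- every element is the value of a word
  have hex : ∀ g : G, ∃ w : List (Alphabet X), val w = g := fun g => by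
    obtain ⟨w, -, hw⟩ := hsurj g
    exact ⟨w, hw⟩
  have hdist : ∀ g h : G, ∀ K : ℕ, wordDist X g h ≤ K →
      BlS (Set.range (fun a : Alphabet X => (a : G))) K (g⁻¹ * h) := by
    intro g h K hK
    have hne : {m : ℕ | ∃ w : List (Alphabet X), val w = g⁻¹ * h ∧ w.length = m}.Nonempty := by
      obtain ⟨w, hw⟩ := hex (g⁻¹ * h)
      exact ⟨w.length, w, hw, rfl⟩
    obtain ⟨w, hw, hl⟩ := Nat.sInf_mem hne
    refine ⟨w.map (fun a : Alphabet X => (a : G)), ?_, ?_, hw⟩
    · rw [List.length_map, hl]
      exact hK
    · intro x hx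
      obtain ⟨a, _, rfl⟩ := List.mem_map.mp hx
      exact Or.inl ⟨a, rfl⟩
  have hacc : ∀ w, w ∈ M.accepts ↔ w ∈ L := fun w => by rw [hM]
  refine ⟨{
    α := Alphabet X
    finα := hA
    s := fun a : Alphabet X => (a : G)
    σ := σ
    finσ := inferInstance
    M := M
    k := K
    surj := ?_
    fellow := ?_ }⟩
  · intro g
    obtain ⟨w, hw, hg⟩ := hsurj g
    exact ⟨w, (hacc w).mpr hw, hg⟩
  · intro u hu v hv a ha hev t
    rw [hr] at ha
    have h1 := hfellow v ((hacc v).mp hv) u ((hacc u).mp hu) a ha.symm hev.symm t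
    have h2 := BlS_inv (hdist _ _ _ h1)
    rw [mul_inv_rev, inv_inv] at h2
    exact h2

/-- transport along an isomorphism -/
def Aut.transport {G : Type u} [Group G] (S : Aut G) {G' : Type} [Group G'] (e : G ≃* G') :
    Aut G' where
  n := S.n
  s := fun i => e (S.s i)
  σ := S.σ
  fin := S.fin
  M := S.M
  k := S.k
  surj g := by
    obtain ⟨w, hw, hg⟩ := S.surj (e.symm g)
    refine ⟨w, hw, ?_⟩
    have h1 : (w.map fun i => e (S.s i)) = (w.map S.s).map e := by rw [List.map_map]; rfl
    rw [h1, ← map_list_prod, hg, MulEquiv.apply_symm_apply]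
  fellow u hu v hv a ha hev t := by
    have h1 : ∀ w : List (Fin S.n), (w.map fun i => e (S.s i)).prod = e (w.map S.s).prod := by
      intro w
      have h2 : (w.map fun i => e (S.s i)) = (w.map S.s).map e := by rw [List.map_map]; rfl
      rw [h2, ← map_list_prod]
    rw [h1, h1] at hev
    obtain ⟨l, hl1, hl2, hl3⟩ := S.fellow u hu v hv (e.symm a) (by
      rcases ha with rfl | ⟨i, rfl⟩
      · left; simp
      · right; exact ⟨i, by simp⟩) (by
      apply e.injective
      rw [map_mul, MulEquiv.apply_symm_apply, hev]) t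
    refine ⟨l.map e, by simpa using hl1, ?_, ?_⟩
    · intro x hx
      obtain ⟨y, hy, rfl⟩ := List.mem_map.mp hx
      rcases hl2 y hy with ⟨i, hi⟩ | ⟨i, hi⟩
      · left; exact ⟨i, by rw [← hi]⟩
      · right; exact ⟨i, by rw [← map_inv, ← hi]⟩
    · rw [h1, h1, ← map_list_prod, ← map_mul, hl3]

/-- the main theorem for groups in `Type` -/
theorem main_type {G : Type} [Group G] (S : Aut G) (hder : IsMetabelian G) :
    IsVirtuallyAbelian G := by
  have hder2 : derivedSeries G 2 = ⊥ := by
    rw [derivedSeries_succ, derivedSeries_one, Subgroup.commutator_eq_bot_iff_le_centralizer]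
    intro x hx
    rw [Subgroup.mem_centralizer_iff]
    intro y hy
    exact hder y hy x hx
  have hfin : (Set.range S.s).Finite := Set.finite_range S.s
  have hgen : Subgroup.closure (Set.range S.s) = ⊤ := by
    rw [eq_top_iff]
    intro g _
    obtain ⟨w, _, hw⟩ := S.surj g
    rw [← hw]
    apply Subgroup.list_prod_mem
    intro x hx
    obtain ⟨i, _, hi⟩ := List.mem_map.mp hx
    rw [← hi]
    exact Subgroup.subset_closure ⟨i, rfl⟩
  obtain ⟨R, _, N, _, _, _, _, Δ, hΔ⟩ := exists_modData G hfin hgen hder2
  obtain ⟨k', hk', m, hPL⟩ := Δ.positive_law S.combing hfin hgen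
  have hQ : ∃ e : ℕ, 0 < e ∧ ∀ g : G, ∀ c : ℕ, 0 < c → g ^ c ∈ Δ.A → g ^ e ∈ Δ.A := by
    rw [hΔ]
    exact exists_eQ G hfin hgen
  obtain ⟨e, he, hRP⟩ := Δ.root_property S.combing hfin hgen hQ
  exact S.partD hk' hPL he hRP

/-- metabelian automatic groups, any universe -/
theorem main_univ {G : Type u} [Group G] (S : Aut G) (hder : IsMetabelian G) :
    IsVirtuallyAbelian G := by
  have hcount : Countable G := by
    have h1 : Function.Surjective (fun w : List (Fin S.n) => (w.map S.s).prod) := fun g => by
      obtain ⟨w, _, hw⟩ := S.surj g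
      exact ⟨w, hw⟩
    exact h1.countable
  let e : G ≃* Shrink.{0} G := (Shrink.mulEquiv.{0, u} (α := G)).symm
  obtain ⟨H, hH, hab⟩ := main_type (Aut.transport S e) (by
    intro x hx y hy
    have h1 : ∀ z ∈ commutator (Shrink.{0} G), e.symm z ∈ commutator G := by
      intro z hz
      have h2 : Subgroup.map e.symm.toMonoidHom (commutator (Shrink.{0} G)) ≤ commutator G := by
        rw [commutator_def, commutator_def, Subgroup.map_commutator]
        exact Subgroup.commutator_mono le_top le_top
      exact h2 ⟨z, hz, rfl⟩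
    apply e.symm.injective
    rw [map_mul, map_mul]
    exact hder _ (h1 x hx) _ (h1 y hy))
  refine ⟨H.comap e.toMonoidHom, ?_, ?_⟩
  · have h1 : (H.comap e.toMonoidHom).index = H.index :=
      Subgroup.index_comap_of_surjective H e.surjective
    exact ⟨by rw [h1]; exact hH.index_ne_zero⟩
  · intro x hx y hy
    apply e.injective
    rw [map_mul, map_mul]
    exact hab _ hx _ hy

/-- **Full answer to Q1, in the problem's words, and for virtually metabelian groups.**
Every metabelian automatic group is virtually abelian; more generally every automatic group that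
has a metabelian subgroup `N` of finite index is virtually abelian. -/
theorem result (G : Type u) [Group G] (hG : IsAutomatic G)
    (hmet : IsMetabelian G ∨ ∃ N : Subgroup G, N.FiniteIndex ∧ IsMetabelian N) :
    IsVirtuallyAbelian G := by
  obtain ⟨S⟩ := exists_autG hG
  rcases hmet with hmet | ⟨N, hN, hmet⟩
  · obtain ⟨S'⟩ := S.toAut
    exact main_univ S' hmet
  · obtain ⟨T⟩ := S.exists_sub N
    obtain ⟨T'⟩ := T.toAut
    obtain ⟨H, hH, hab⟩ := main_univ T' hmet
    refine ⟨H.map N.subtype, ?_, ?_⟩
    · refine ⟨?_⟩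
      have h1 := Subgroup.index_map_subtype H
      rw [h1]
      exact mul_ne_zero hH.index_ne_zero hN.index_ne_zero
    · rintro _ ⟨x, hx, rfl⟩ _ ⟨y, hy, rfl⟩
      rw [← map_mul, ← map_mul, hab x hx y hy]

end Pool.Agent.Results.MP_59c382_al.VirtuallyMetabelian
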